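import Pool.Agent.Run7.h295.EC.Iface

/-!
# Piece HAND of project EC (helper295), MP_2a9600_co
-/

namespace Run7.h593.EC

open Finset Run7.h295.EC

/-- the degree sum over a set -/
theorem t_HAND : S_HAND := by
  classical
  intro V _ _ G X
  have h1 : ∀ v, dg G v = ∑ e ∈ EE G, (if v ∈ e then 1 else 0) := by
    intro v
    unfold dg inc
    rw [Finset.card_filter]
    refine Finset.sum_congr rfl (fun e _ => ?_)
    congr
  have h2 : (ins G X).card = ∑ e ∈ EE G, (if (∀ v ∈ e, v ∈ X) then 1 else 0) := by
    unfold ins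
    rw [Finset.card_filter]
    refine Finset.sum_congr rfl (fun e _ => ?_)
    congr
  have h3 : (h295.EC.btw G X Xᶜ).card
      = ∑ e ∈ EE G, (if (∃ x ∈ X, ∃ y ∈ Xᶜ, e = s(x, y)) then 1 else 0) := by
    unfold h295.EC.btw
    rw [Finset.card_filter]
    refine Finset.sum_congr rfl (fun e _ => ?_)
    congr
  rw [h2, h3, Finset.mul_sum, ← Finset.sum_add_distrib]
  calc ∑ v ∈ X, dg G v = ∑ v ∈ X, ∑ e ∈ EE G, (if v ∈ e then 1 else 0) :=
        Finset.sum_congr rfl (fun v _ => h1 v)
    _ = ∑ e ∈ EE G, ∑ v ∈ X, (if v ∈ e then 1 else 0) := Finset.sum_comm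
    _ = _ := by
      refine Finset.sum_congr rfl (fun e he => ?_)
      induction e using Sym2.ind with
      | _ a b =>
        have hab : G.Adj a b := by
          unfold EE at he
          simpa using he
        have hne : a ≠ b := hab.ne
        have e1 : ∑ v ∈ X, (if v ∈ s(a, b) then 1 else 0)
            = (if a ∈ X then 1 else 0) + (if b ∈ X then 1 else 0) := by
          have : ∀ v, (if v ∈ s(a, b) then 1 else 0)
              = (if v = a then 1 else 0) + (if v = b then (1 : ℕ) else 0) := by
            intro v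
            by_cases h1 : v = a
            · subst h1
              simp [hne]
            · by_cases h2 : v = b
              · subst h2
                simp [h1]
              · simp [h1, h2]
          rw [Finset.sum_congr rfl (fun v _ => this v), Finset.sum_add_distrib,
            Finset.sum_ite_eq', Finset.sum_ite_eq']
        rw [e1]
        have e2 : (∀ v ∈ s(a, b), v ∈ X) ↔ (a ∈ X ∧ b ∈ X) := by
          constructor
          · intro h
            exact ⟨h a (by simp), h b (by simp)⟩
          · rintro ⟨h, h'⟩ v hv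
            rcases Sym2.mem_iff.1 hv with rfl | rfl
            · exact h
            · exact h'
        have e3 : (∃ x ∈ X, ∃ y ∈ Xᶜ, s(a, b) = s(x, y)) ↔
            ((a ∈ X ∧ b ∉ X) ∨ (b ∈ X ∧ a ∉ X)) := by
          constructor
          · rintro ⟨x, hx, y, hy, h⟩
            rw [Finset.mem_compl] at hy
            rcases Sym2.eq_iff.1 h with ⟨rfl, rfl⟩ | ⟨rfl, rfl⟩
            · exact Or.inl ⟨hx, hy⟩
            · exact Or.inr ⟨hx, hy⟩
          · rintro (⟨h, h'⟩ | ⟨h, h'⟩)
            · exact ⟨a, h, b, Finset.mem_compl.2 h', rfl⟩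
            · exact ⟨b, h, a, Finset.mem_compl.2 h', Sym2.eq_swap⟩
        by_cases ha : a ∈ X <;> by_cases hb : b ∈ X <;> simp only [e2, e3, ha, hb] <;> simp

end Run7.h593.EC
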