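import Pool.Agent.Run7.h295.EC.Iface

/-!
# Piece REG of project EC (helper295), MP_2a9600_co
-/

namespace Run7.h593.EC

open Finset Run7.h295.EC

/-- a nonempty closed set of a connected graph is everything -/
theorem closed_univ {V : Type} [Fintype V] (G : SimpleGraph V) (hc : G.Connected) (O : Finset V)
    (hne : O.Nonempty) (hcl : ∀ x ∈ O, ∀ y, G.Adj x y → y ∈ O) : O = Finset.univ := by
  obtain ⟨u, hu⟩ := hne
  have key : ∀ (a b : V) (p : G.Walk a b), a ∈ O → b ∈ O := by
    intro a b p
    induction p with
    | nil => exact id
    | cons h _ ih => exact fun ha => ih (hcl _ ha _ h)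
  ext v
  refine ⟨fun _ => Finset.mem_univ _, fun _ => ?_⟩
  obtain ⟨p⟩ := hc.preconnected u v
  exact key u v p hu

/-- two-regular graphs have a small edge cover -/
theorem t_REG (hB : S_BAR) (hL : S_LOC) : S_REG := by
  intro V _ _ G k hc hdeg hk hn hm
  have hev : Even (Fintype.card V + (k - 2)) := by
    refine ⟨2 * k - 1, ?_⟩
    omega
  rcases hB V G (k - 2) (fun v => le_trans (by norm_num) (hdeg v)) hev with
    ⟨S, hS, hS2⟩ | ⟨W, F, hbar, hF⟩
  · exact ⟨S, hS, by omega⟩
  · exfalso
    rcases W.eq_empty_or_nonempty with hW | hW
    · subst hW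
      have hall : ∀ O ∈ F, O = Finset.univ := by
        intro O hO
        have hodd := hbar.1 O hO
        have hne : O.Nonempty := by
          rw [← Finset.card_pos]
          exact hodd.pos
        refine closed_univ G hc O hne ?_
        intro x hx y hxy
        rcases hbar.2.2.2 O hO x hx y hxy with h | h
        · exact h
        · simp at h
      have h1 : F.card ≤ 1 := by
        rw [Finset.card_le_one]
        intro a ha b hb
        rw [hall a ha, hall b hb]
      simp at hF
      omega
    · obtain ⟨-, -, -, h4⟩ := hL V G W F hc hdeg hbar hW (by omega)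
      omega

end Run7.h593.EC
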