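import Pool.Agent.Run7.h593.EC.Mem

/-!
# Pieces TRI and SMALL of project EC (helper295), MP_2a9600_co
-/

namespace Run7.h593.EC

open Finset Run7.h295.EC

/-- the single vertex: three of the four sets -/
theorem t_SMALL : S_SMALL := by
  classical
  intro V _ _ G W O hd h1 h2 h3
  have hI : ins G O = ∅ := Finset.card_eq_zero.1 h2
  rw [hI, Finset.empty_union]
  have hp : (btw G O W).powerset.card = 4 := by rw [Finset.card_powerset, h3]; rfl
  obtain ⟨v, hv⟩ := Finset.card_eq_one.1 h1
  have hlt : ((btw G O W).powerset.filter (fun X => ∀ v ∈ O, ∃ e ∈ X, v ∈ e)).card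
      < (btw G O W).powerset.card := by
    apply Finset.card_lt_card
    rw [Finset.filter_ssubset]
    refine ⟨∅, by simp, ?_⟩
    intro h
    obtain ⟨e, he, _⟩ := h v (by rw [hv]; simp)
    simp at he
  have h4 : ((btw G O W).powerset.filter (fun X => ∀ v ∈ O, ∃ e ∈ X, v ∈ e)).card ≤ 3 := by
    omega
  convert h4 using 2

/-- the triangle: nine of the sixteen sets -/
theorem t_TRI : S_TRI := by
  classical
  intro V _ _ G W O hd h1 h2 h3
  obtain ⟨e0, he0⟩ := Finset.card_eq_one.1 h3
  have hm : e0 ∈ h295.EC.btw G O W := by rw [he0]; simp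
  obtain ⟨-, z, hz, w, hw, rfl⟩ := (mem_btw G O W e0).1 hm
  have hc : (O.erase z).card = 2 := by rw [Finset.card_erase_of_mem hz, h1]
  obtain ⟨x, y, hxy, hO⟩ := Finset.card_eq_two.1 hc
  have hx : x ∈ O.erase z := by rw [hO]; simp
  have hy : y ∈ O.erase z := by rw [hO]; simp
  have hxz : x ≠ z := (Finset.mem_erase.1 hx).1
  have hyz : y ≠ z := (Finset.mem_erase.1 hy).1
  have hxO : x ∈ O := (Finset.mem_erase.1 hx).2
  have hyO : y ∈ O := (Finset.mem_erase.1 hy).2
  have hOm : ∀ v ∈ O, v = x ∨ v = y ∨ v = z := by
    intro v hv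
    by_cases hvz : v = z
    · exact Or.inr (Or.inr hvz)
    · have : v ∈ O.erase z := Finset.mem_erase.2 ⟨hvz, hv⟩
      rw [hO] at this
      rcases Finset.mem_insert.1 this with h | h
      · exact Or.inl h
      · exact Or.inr (Or.inl (Finset.mem_singleton.1 h))
  have hWO : ∀ v ∈ O, v ≠ w := by
    rintro v hv rfl
    exact Finset.disjoint_left.1 hd hv hw
  have hT : ∀ e ∈ ins G O ∪ h295.EC.btw G O W,
      e = s(x, y) ∨ e = s(y, z) ∨ e = s(z, x) ∨ e = s(z, w) := by
    intro e he
    rcases Finset.mem_union.1 he with he | he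
    · obtain ⟨hE, hin⟩ := (mem_ins G O e).1 he
      induction e using Sym2.ind with
      | _ a b =>
        have hab : G.Adj a b := by
          unfold EE at hE
          simpa using hE
        have hne : a ≠ b := hab.ne
        rcases hOm a (hin a (by simp)) with rfl | rfl | rfl <;>
          rcases hOm b (hin b (by simp)) with rfl | rfl | rfl <;>
          simp_all
    · rw [he0] at he
      exact Or.inr (Or.inr (Or.inr (Finset.mem_singleton.1 he)))
  have hS : (Finset.univ.filter (fun p : Bool × Bool × Bool × Bool =>
      (p.1 || p.2.2.1) && (p.1 || p.2.1) && (p.2.1 || p.2.2.1 || p.2.2.2))).card = 9 := by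
    decide
  have key : ((ins G O ∪ h295.EC.btw G O W).powerset.filter
      (fun X => ∀ v ∈ O, ∃ e ∈ X, v ∈ e)).card ≤ 9 := by
    rw [← hS]
    refine Finset.card_le_card_of_injOn
      (fun X => (decide (s(x, y) ∈ X), decide (s(y, z) ∈ X), decide (s(z, x) ∈ X),
        decide (s(z, w) ∈ X))) ?_ ?_
    · intro X hX
      rw [Finset.mem_coe, Finset.mem_filter, Finset.mem_powerset] at hX
      obtain ⟨hsub, hcov⟩ := hX
      rw [Finset.mem_coe, Finset.mem_filter]
      refine ⟨Finset.mem_univ _, ?_⟩
      have c1 : s(x, y) ∈ X ∨ s(z, x) ∈ X := by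
        obtain ⟨e, he, hxe⟩ := hcov x hxO
        rcases hT e (hsub he) with rfl | rfl | rfl | rfl
        · exact Or.inl he
        · exfalso
          rcases Sym2.mem_iff.1 hxe with h | h
          · exact hxy h
          · exact hxz h
        · exact Or.inr he
        · exfalso
          rcases Sym2.mem_iff.1 hxe with h | h
          · exact hxz h
          · exact hWO x hxO h
      have c2 : s(x, y) ∈ X ∨ s(y, z) ∈ X := by
        obtain ⟨e, he, hxe⟩ := hcov y hyO
        rcases hT e (hsub he) with rfl | rfl | rfl | rfl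
        · exact Or.inl he
        · exact Or.inr he
        · exfalso
          rcases Sym2.mem_iff.1 hxe with h | h
          · exact hyz h
          · exact hxy h.symm
        · exfalso
          rcases Sym2.mem_iff.1 hxe with h | h
          · exact hyz h
          · exact hWO y hyO h
      have c3 : (s(y, z) ∈ X ∨ s(z, x) ∈ X) ∨ s(z, w) ∈ X := by
        obtain ⟨e, he, hxe⟩ := hcov z hz
        rcases hT e (hsub he) with rfl | rfl | rfl | rfl
        · exfalso
          rcases Sym2.mem_iff.1 hxe with h | h
          · exact hxz h.symm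
          · exact hyz h.symm
        · exact Or.inl (Or.inl he)
        · exact Or.inl (Or.inr he)
        · exact Or.inr he
      simp only [Bool.and_eq_true, Bool.or_eq_true, decide_eq_true_eq]
      exact ⟨⟨c1, c2⟩, c3⟩
    · intro X hX Y hY hXY
      rw [Finset.mem_coe, Finset.mem_filter, Finset.mem_powerset] at hX hY
      simp only [Prod.mk.injEq, decide_eq_decide] at hXY
      obtain ⟨q1, q2, q3, q4⟩ := hXY
      ext e
      constructor
      · intro he
        rcases hT e (hX.1 he) with rfl | rfl | rfl | rfl
        · exact q1.1 he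
        · exact q2.1 he
        · exact q3.1 he
        · exact q4.1 he
      · intro he
        rcases hT e (hY.1 he) with rfl | rfl | rfl | rfl
        · exact q1.2 he
        · exact q2.2 he
        · exact q3.2 he
        · exact q4.2 he
  convert key using 2

end Run7.h593.EC
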