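import Pool.Agent.Run7.h295.EC.Iface

/-!
# Membership lemmas for project EC (helper295), MP_2a9600_co
-/

namespace Run7.h593.EC

open Finset Run7.h295.EC

variable {V : Type} [Fintype V]

theorem mem_EE (G : SimpleGraph V) (e : Sym2 V) : e ∈ EE G ↔ e ∈ G.edgeSet := by
  classical
  unfold EE
  simp

theorem mem_inc (G : SimpleGraph V) (v : V) (e : Sym2 V) : e ∈ inc G v ↔ e ∈ EE G ∧ v ∈ e := by
  unfold inc
  classical exact Finset.mem_filter

theorem mem_ins (G : SimpleGraph V) (X : Finset V) (e : Sym2 V) :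
    e ∈ ins G X ↔ e ∈ EE G ∧ ∀ v ∈ e, v ∈ X := by
  unfold ins
  classical exact Finset.mem_filter

theorem mem_btw (G : SimpleGraph V) (X Y : Finset V) (e : Sym2 V) :
    e ∈ h295.EC.btw G X Y ↔ e ∈ EE G ∧ ∃ x ∈ X, ∃ y ∈ Y, e = s(x, y) := by
  unfold h295.EC.btw
  classical exact Finset.mem_filter

end Run7.h593.EC
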